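import Pool.Agent.H741.EL.Stm

/-!
# EL PINC: the perturbed body stays in the ellipse (helper179)
-/

set_option autoImplicit false
open MeasureTheory Metric Set Filter Topology

namespace Pool.Agent.H179.EL

open Pool.Agent.Y508 Pool.Agent.H741.EL

theorem cont_hE (a b : ℝ) : Continuous (hE a b) := by
  unfold hE
  fun_prop

theorem hE_two_pi (a b θ : ℝ) : hE a b (θ + 2 * Real.pi) = hE a b θ := by
  unfold hE
  rw [Real.cos_add_two_pi, Real.sin_add_two_pi]

theorem t_PINC (h1 : S_ELL) (h2 : S_QQ) : S_PINC := by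
  intro a b p K θp R s w c φ₁ hC hpq hs0 hsR hP
  obtain ⟨e1, -, -, -, e5, -, -, -⟩ := h1 a b hC.hb hC.hab
  obtain ⟨-, -, -, -, q5, -, q7, -, -⟩ := h2 a b hC.hb hC.hab
  have hKE : ∀ θ, hs K θ ≤ hE a b θ := fun θ => by
    rw [← e5]
    exact hs_mono e1.cpt hC.body.ne hC.sub θ
  have hpK : ∀ θ, ip p θ ≤ hs K θ := fun θ => le_hs hC.body.cpt hC.mem θ
  have hpE : ∀ θ, ip p θ ≤ hE a b θ := fun θ => (hpK θ).trans (hKE θ)
  have cK : Continuous (hs K) := cont_hs hC.body.cpt
  have cE : Continuous (hE a b) := cont_hE a b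
  have cp : Continuous (ip p) := cont_ip p
  have cw : Continuous (ip w) := cont_ip w
  have hc : 0 < c := hP.cpos
  -- the far part
  have far : ∀ᶠ δ in 𝓝 (0 : ℝ), ∀ θ ∈ Icc (θp + φ₁) (θp + 2 * Real.pi - φ₁), 0 < δ →
      (1 - c * δ) * max (hs K θ - δ * ip w θ) (ip p θ) +
        (c * δ) * max (ip p θ - R * Real.cos (θ - θp) + s) (ip p θ) ≤ hE a b θ := by
    refine isCompact_Icc.eventually_forall_of_forall_eventually ?_
    intro θs hθs
    have hlt : ip p θs < hE a b θs := by
      by_contra hno
      push Not at hno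
      have h3 := q5 θs p (hC.sub hC.mem) hno
      obtain ⟨k, hk⟩ := q7 θp θs (hpq ▸ h3)
      have h4 : 0 < (k : ℝ) * (2 * Real.pi) := by linarith [hθs.1, hP.φpos]
      have h5 : (k : ℝ) * (2 * Real.pi) < 1 * (2 * Real.pi) := by linarith [hθs.2, hP.φpos]
      have h6 : (0 : ℝ) < k := by
        by_contra h7
        push Not at h7
        have := mul_nonpos_of_nonpos_of_nonneg h7 Real.two_pi_pos.le
        linarith
      have h7 : (k : ℝ) < 1 := lt_of_mul_lt_mul_right h5 Real.two_pi_pos.le
      have h8 : (0 : ℤ) < k := by exact_mod_cast h6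
      have h9 : k < (1 : ℤ) := by exact_mod_cast h7
      omega
    rcases lt_or_eq_of_le (hKE θs) with hD | hD
    · -- not touching
      have hF : Continuous (fun z : ℝ × ℝ => (1 - c * z.1) * max (hs K z.2 - z.1 * ip w z.2)
          (ip p z.2) + (c * z.1) * max (ip p z.2 - R * Real.cos (z.2 - θp) + s) (ip p z.2)
          - hE a b z.2) := by
        have c1 : Continuous (fun z : ℝ × ℝ => hs K z.2) := cK.comp continuous_snd
        have c2 : Continuous (fun z : ℝ × ℝ => ip w z.2) := cw.comp continuous_snd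
        have c3 : Continuous (fun z : ℝ × ℝ => ip p z.2) := cp.comp continuous_snd
        have c4 : Continuous (fun z : ℝ × ℝ => hE a b z.2) := cE.comp continuous_snd
        fun_prop
      have h0 : (fun z : ℝ × ℝ => (1 - c * z.1) * max (hs K z.2 - z.1 * ip w z.2)
          (ip p z.2) + (c * z.1) * max (ip p z.2 - R * Real.cos (z.2 - θp) + s) (ip p z.2)
          - hE a b z.2) (0, θs) < 0 := by
        have h3 : max (hs K θs) (ip p θs) < hE a b θs := max_lt hD hlt
        simp only [mul_zero, sub_zero, one_mul, zero_mul, add_zero]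
        linarith
      filter_upwards [hF.continuousAt.eventually_lt_const h0] with z hz _
      linarith
    · -- touching
      have hfar := hP.far θs hθs hD
      have hG : Continuous (fun z : ℝ × ℝ => (1 - c * z.1) * ip w z.2 -
          c * max (s - R * Real.cos (z.2 - θp)) 0) := by
        have c2 : Continuous (fun z : ℝ × ℝ => ip w z.2) := cw.comp continuous_snd
        fun_prop
      have hG0 : (0 : ℝ) < (fun z : ℝ × ℝ => (1 - c * z.1) * ip w z.2 -
          c * max (s - R * Real.cos (z.2 - θp)) 0) (0, θs) := by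
        simp only [mul_zero, sub_zero, one_mul]
        linarith
      have hH : Continuous (fun z : ℝ × ℝ => ip p z.2 +
          (c * z.1) * max (s - R * Real.cos (z.2 - θp)) 0 - hE a b z.2) := by
        have c3 : Continuous (fun z : ℝ × ℝ => ip p z.2) := cp.comp continuous_snd
        have c4 : Continuous (fun z : ℝ × ℝ => hE a b z.2) := cE.comp continuous_snd
        fun_prop
      have hH0 : (fun z : ℝ × ℝ => ip p z.2 +
          (c * z.1) * max (s - R * Real.cos (z.2 - θp)) 0 - hE a b z.2) (0, θs) < 0 := by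
        simp only [mul_zero, zero_mul, add_zero]
        linarith
      have h1c : Continuous (fun z : ℝ × ℝ => 1 - c * z.1) := by fun_prop
      have h10 : (0 : ℝ) < (fun z : ℝ × ℝ => 1 - c * z.1) (0, θs) := by
        simp only [mul_zero, sub_zero]
        exact one_pos
      filter_upwards [hG.continuousAt.eventually_const_lt hG0,
        hH.continuousAt.eventually_lt_const hH0,
        h1c.continuousAt.eventually_const_lt h10] with z hz1 hz2 hz3 hz4
      have hB : max (ip p z.2 - R * Real.cos (z.2 - θp) + s) (ip p z.2) =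
          ip p z.2 + max (s - R * Real.cos (z.2 - θp)) 0 := by
        rw [← max_add_add_left]
        congr 1
        · ring
        · ring
      rw [hB]
      set B : ℝ := max (s - R * Real.cos (z.2 - θp)) 0 with hBd
      rcases le_total (hs K z.2 - z.1 * ip w z.2) (ip p z.2) with h3 | h3
      · rw [max_eq_right h3]
        have h4 : (1 - c * z.1) * ip p z.2 + c * z.1 * (ip p z.2 + B) =
          ip p z.2 + c * z.1 * B := by ring
        rw [h4]
        linarith
      · rw [max_eq_left h3]
        have h5 : (1 - c * z.1) * (hs K z.2 - z.1 * ip w z.2) ≤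
            (1 - c * z.1) * (hE a b z.2 - z.1 * ip w z.2) :=
          mul_le_mul_of_nonneg_left (by linarith [hKE z.2]) hz3.le
        have h6 : c * z.1 * (ip p z.2 + B) ≤ c * z.1 * (hE a b z.2 + B) :=
          mul_le_mul_of_nonneg_left (by linarith [hpE z.2]) (mul_pos hc hz4).le
        have h7 : (1 - c * z.1) * (hE a b z.2 - z.1 * ip w z.2) + c * z.1 * (hE a b z.2 + B) =
            hE a b z.2 - z.1 * ((1 - c * z.1) * ip w z.2 - c * B) := by ring
        have h8 : 0 < z.1 * ((1 - c * z.1) * ip w z.2 - c * B) := mul_pos hz4 hz1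
        linarith
  have hsm : ∀ᶠ δ in 𝓝 (0 : ℝ), c * δ < 1 := by
    have h3 : Continuous (fun δ : ℝ => c * δ) := by fun_prop
    exact h3.continuousAt.eventually_lt_const (by simp)
  filter_upwards [self_mem_nhdsWithin, mem_nhdsWithin_of_mem_nhds far,
    mem_nhdsWithin_of_mem_nhds hsm] with δ hδ hfar hcδ
  have hδ0 : 0 < δ := hδ
  have hcδ' : c * δ < 1 := hcδ
  -- the claim on one period
  have key : ∀ θ ∈ Ico (θp - φ₁) (θp - φ₁ + 2 * Real.pi),
      (1 - c * δ) * max (hs K θ - δ * ip w θ) (ip p θ) +
        (c * δ) * max (ip p θ - R * Real.cos (θ - θp) + s) (ip p θ) - hE a b θ ≤ 0 := by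
    intro θ hθ
    rcases le_or_gt θ (θp + φ₁) with hle | hgt
    · have habs : |θ - θp| ≤ φ₁ := abs_le.2 ⟨by linarith [hθ.1], by linarith⟩
      obtain ⟨n1, n2⟩ := hP.near (θ - θp) habs
      rw [add_sub_cancel] at n2
      have h3 : max (ip p θ - R * Real.cos (θ - θp) + s) (ip p θ) = ip p θ :=
        max_eq_right (by linarith)
      have h4 : max (hs K θ - δ * ip w θ) (ip p θ) ≤ hE a b θ := by
        refine max_le ?_ (hpE θ)
        have := mul_nonneg hδ0.le n2
        linarith [hKE θ]
      rw [h3]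
      have h5 : (1 - c * δ) * max (hs K θ - δ * ip w θ) (ip p θ) ≤ (1 - c * δ) * hE a b θ :=
        mul_le_mul_of_nonneg_left h4 (by linarith)
      have h6 : c * δ * ip p θ ≤ c * δ * hE a b θ :=
        mul_le_mul_of_nonneg_left (hpE θ) (mul_pos hc hδ0).le
      linarith
    · have := hfar θ ⟨hgt.le, by linarith [hθ.2]⟩ hδ0
      linarith
  have hper : Function.Periodic (fun θ : ℝ =>
      (1 - c * δ) * max (hs K θ - δ * ip w θ) (ip p θ) +
        (c * δ) * max (ip p θ - R * Real.cos (θ - θp) + s) (ip p θ) - hE a b θ)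
      (2 * Real.pi) := by
    intro θ
    simp only
    have h3 : Real.cos (θ + 2 * Real.pi - θp) = Real.cos (θ - θp) := by
      rw [show θ + 2 * Real.pi - θp = (θ - θp) + 2 * Real.pi by ring, Real.cos_add_two_pi]
    rw [hs_two_pi, ip_two_pi, ip_two_pi, hE_two_pi, h3]
  intro θ
  obtain ⟨y, hy, hyθ⟩ := hper.exists_mem_Ico Real.two_pi_pos θ (θp - φ₁)
  have h3 := key y hy
  linarith

end Pool.Agent.H179.EL
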